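import Pool.Agent.Helper81.T5.FPIa

set_option autoImplicit false

/-!
The gauge fixing identity.
-/

open Finset MeasureTheory Filter Topology

namespace Pool.Agent.Helper81.T5

open Pool.Agent.Helper15.T4 Pool.Agent.Helper46.T5

/-- The quotient. -/
noncomputable def gg (K N : ℕ) (y : (Fin K × Fin 2 → Fin 3) → ℝ) : ℝ := fv K y ^ (2 * N) / Psi K N y

/-- The Gaussian bump. -/
noncomputable def ww (K N : ℕ) (s : ℤˣ) (π : Equiv.Perm (Fin K × Fin 2))
    (y : (Fin K × Fin 2 → Fin 3) → ℝ) (O : Fin K → M3) : ℝ :=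
  Real.exp (-(N : ℝ) * nsq (fun a => y a - ((s : ℤ) : ℝ) * pt π O a))

theorem Psi_eq (K N : ℕ) (y : (Fin K × Fin 2 → Fin 3) → ℝ) :
    Psi K N y = ∑ s : ℤˣ, ∑ π : Equiv.Perm (Fin K × Fin 2), AV K (ww K N s π y) := rfl

theorem ww_pos (K N : ℕ) (s : ℤˣ) (π : Equiv.Perm (Fin K × Fin 2))
    (y : (Fin K × Fin 2 → Fin 3) → ℝ) (O : Fin K → M3) : 0 < ww K N s π y O := Real.exp_pos _

theorem ww_le (K N : ℕ) (s : ℤˣ) (π : Equiv.Perm (Fin K × Fin 2))
    (y : (Fin K × Fin 2 → Fin 3) → ℝ) (O : Fin K → M3) : ww K N s π y O ≤ 1 := by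
  unfold ww
  rw [Real.exp_le_one_iff]
  have := nsq_nonneg' (fun a => y a - ((s : ℤ) : ℝ) * pt π O a)
  have h2 : (0 : ℝ) ≤ N := Nat.cast_nonneg N
  nlinarith

theorem units_sq (s : ℤˣ) : ((s : ℤ) : ℝ) ^ 2 = 1 := by
  rcases Int.units_eq_one_or s with h | h <;> simp [h]

theorem nsq_eq_ip {ι : Type} [Fintype ι] (x : ι → ℝ) : nsq x = ip x x := by
  unfold nsq ip
  exact Finset.sum_congr rfl (fun i _ => pow_two _)

theorem nsq_act (hM : ST_ACTM) (J : Type) [Fintype J] [DecidableEq J] (A : J → M3)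
    (hA : ∀ j, SO3 (A j)) (x : (J → Fin 3) → ℝ) : nsq (act A x) = nsq x := by
  obtain ⟨h1, h2, -⟩ := hM
  rw [nsq_eq_ip, h2, (h1 ℝ J _ _ _).1]
  have h3 : (fun j => (A j).transpose * A j) = fun _ : J => (1 : Matrix (Fin 3) (Fin 3) ℝ) := by
    funext j
    exact mul_eq_one_comm.mp (hA j).1
  rw [h3, (h1 ℝ J A A x).2, nsq_eq_ip]

theorem act_sub {J : Type} [Fintype J] [DecidableEq J] (A : J → M3) (x y : (J → Fin 3) → ℝ) :
    act A (fun a => x a - y a) = fun a => act A x a - act A y a := by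
  funext a
  unfold act
  rw [← Finset.sum_sub_distrib]
  exact Finset.sum_congr rfl (fun b _ => by ring)

theorem nsq_perm {J : Type} [Fintype J] [DecidableEq J] (π : Equiv.Perm J) (x : (J → Fin 3) → ℝ) :
    nsq (fun a : J → Fin 3 => x (a ∘ π)) = nsq x := by
  unfold nsq
  exact Equiv.sum_comp (Equiv.arrowCongr π.symm (Equiv.refl (Fin 3))) (fun a => x a ^ 2)

theorem nsq_smul' {ι : Type} [Fintype ι] (s : ℤˣ) (x : ι → ℝ) :
    nsq (fun a => ((s : ℤ) : ℝ) * x a) = nsq x := by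
  unfold nsq
  refine Finset.sum_congr rfl (fun i _ => ?_)
  rw [mul_pow, units_sq, one_mul]

theorem TJ_smul (J : Type) [Fintype J] [DecidableEq J] (s : ℝ) (x : (J → Fin 3) → ℝ) :
    TJ J (fun a => s * x a) (fun a => s * x a) (fun a => s * x a) = s ^ 3 * TJ J x x x := by
  unfold TJ
  rw [Finset.mul_sum]
  refine Finset.sum_congr rfl (fun a _ => ?_)
  rw [Finset.mul_sum]
  refine Finset.sum_congr rfl (fun b _ => ?_)
  rw [Finset.mul_sum]
  exact Finset.sum_congr rfl (fun c _ => by ring)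

/-- The substitution. -/
noncomputable def TT {K : ℕ} (s : ℤˣ) (π : Equiv.Perm (Fin K × Fin 2)) (A : Fin K × Fin 2 → M3)
    (z : (Fin K × Fin 2 → Fin 3) → ℝ) : (Fin K × Fin 2 → Fin 3) → ℝ :=
  fun a => ((s : ℤ) : ℝ) * act A z (a ∘ π)

theorem nsq_TT (hM : ST_ACTM) {K : ℕ} (s : ℤˣ) (π : Equiv.Perm (Fin K × Fin 2))
    (A : Fin K × Fin 2 → M3) (hA : ∀ j, SO3 (A j)) (z : (Fin K × Fin 2 → Fin 3) → ℝ) :
    nsq (TT s π A z) = nsq z := by
  unfold TT
  rw [nsq_smul' s (fun a : Fin K × Fin 2 → Fin 3 => act A z (a ∘ π)), nsq_perm π (act A z),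
    nsq_act hM _ A hA]

theorem TT_sub {K : ℕ} (s : ℤˣ) (π : Equiv.Perm (Fin K × Fin 2))
    (A : Fin K × Fin 2 → M3) (z w : (Fin K × Fin 2 → Fin 3) → ℝ) :
    (fun a => TT s π A z a - TT s π A w a) = TT s π A (fun a => z a - w a) := by
  funext a
  unfold TT
  rw [act_sub]
  ring

theorem fv_TT (hM : ST_ACTM) (hT : ST_ACTT) (hP : ST_PERMT) {K : ℕ} (N : ℕ) (s : ℤˣ)
    (π : Equiv.Perm (Fin K × Fin 2))
    (A : Fin K × Fin 2 → M3) (hA : ∀ j, SO3 (A j)) (z : (Fin K × Fin 2 → Fin 3) → ℝ) :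
    fv K (TT s π A z) ^ (2 * N) = fv K z ^ (2 * N) := by
  have h1 : TJ (Fin K × Fin 2) (TT s π A z) (TT s π A z) (TT s π A z) =
      ((s : ℤ) : ℝ) ^ 3 * TJ (Fin K × Fin 2) z z z := by
    unfold TT
    rw [TJ_smul (Fin K × Fin 2) ((s : ℤ) : ℝ) (fun a : Fin K × Fin 2 → Fin 3 => act A z (a ∘ π)),
      hP ℝ (Fin K × Fin 2) (Fin K × Fin 2) π (act A z) (act A z) (act A z),
      hT ℝ (Fin K × Fin 2) A z z z]
    rw [Finset.prod_eq_one (fun j _ => (hA j).2), one_mul]
  have h2 : fv K (TT s π A z) ^ 2 = fv K z ^ 2 := by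
    unfold fv
    rw [h1, nsq_TT hM s π A hA z]
    have h3 : (((s : ℤ) : ℝ) ^ 3) ^ 2 = 1 := by
      rw [← pow_mul, mul_comm, pow_mul, units_sq, one_pow]
    rw [div_pow, div_pow, mul_pow, mul_pow, mul_pow, h3, one_mul]
  rw [pow_mul, h2, pow_mul]

theorem Psi_TT (hI : ST_PSINV) {K : ℕ} (N : ℕ) (s : ℤˣ)
    (π : Equiv.Perm (Fin K × Fin 2))
    (A : Fin K × Fin 2 → M3) (hA : ∀ j, SO3 (A j)) (z : (Fin K × Fin 2 → Fin 3) → ℝ) :
    Psi K N (TT s π A z) = Psi K N z := by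
  have h1 : Psi K N (fun a => act A z (a ∘ π)) = Psi K N z := by
    rw [(hI K N (act A z)).2.1 π, (hI K N z).1 A hA]
  rcases Int.units_eq_one_or s with h | h
  · have : TT s π A z = fun a => act A z (a ∘ π) := by
      funext a
      simp [TT, h]
    rw [this, h1]
  · have : TT s π A z = fun a => -(act A z (a ∘ π)) := by
      funext a
      simp [TT, h]
    rw [this, (hI K N (fun a => act A z (a ∘ π))).2.2, h1]

theorem int_TT (hV : ST_ACTV) {K : ℕ} (s : ℤˣ)
    (π : Equiv.Perm (Fin K × Fin 2))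
    (A : Fin K × Fin 2 → M3) (hA : ∀ j, SO3 (A j)) (G : ((Fin K × Fin 2 → Fin 3) → ℝ) → ℝ) :
    ∫ z, G (TT s π A z) = ∫ y, G y := by
  have h1 := hV.1 (Fin K × Fin 2) A
    (fun x => G (fun a : Fin K × Fin 2 → Fin 3 => ((s : ℤ) : ℝ) * x (a ∘ π))) hA
  have h2 := hV.2 (Fin K × Fin 2) π (fun x => G (fun a => ((s : ℤ) : ℝ) * x a))
  refine (h1.trans h2).trans ?_
  rcases Int.units_eq_one_or s with h | h
  · simp [h]
  · have h3 : ∀ x : (Fin K × Fin 2 → Fin 3) → ℝ, (fun a => ((s : ℤ) : ℝ) * x a) = -x := by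
      intro x
      funext a
      simp [h]
    simp only [h3]
    exact integral_neg_eq_self G volume

/-- The product is the image of the peak. -/
theorem TT_u0 (hM : ST_ACTM) {K : ℕ} (s : ℤˣ) (π : Equiv.Perm (Fin K × Fin 2)) (O : Fin K → M3) :
    TT s π (fun j => if j.2 = 0 then O j.1 else 1) (u0 K) =
      fun a => ((s : ℤ) : ℝ) * pt π O a := by
  have h1 := hM.2.2 K (Fin K × Fin 2) (fun j => if j.2 = 0 then O j.1 else 1) (Equiv.refl _)
    (fun _ => 1)
  funext a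
  unfold TT u0
  rw [h1]
  simp [pt]

/-- The inner integral. -/
theorem inner_int (hI : ST_PSINV) (hT : ST_ACTT) (hM : ST_ACTM) (hP : ST_PERMT) (hV : ST_ACTV)
    (K N : ℕ) (s : ℤˣ) (π : Equiv.Perm (Fin K × Fin 2)) (O : Fin K → M3) (hO : ∀ p, SO3 (O p)) :
    ∫ y, gg K N y * ww K N s π y O =
      ∫ z, gg K N z * Real.exp (-(N : ℝ) * nsq (fun a => z a - u0 K a)) := by
  have hA : ∀ j : Fin K × Fin 2, SO3 ((fun j : Fin K × Fin 2 => if j.2 = 0 then O j.1 else 1) j) := by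
    intro j
    by_cases h : j.2 = 0
    · simp only [h, if_true]
      exact hO j.1
    · simp only [h, if_false]
      exact ⟨by simp, by simp⟩
  rw [← int_TT hV s π _ hA]
  refine integral_congr_ae (Eventually.of_forall (fun z => ?_))
  simp only
  unfold gg ww
  rw [fv_TT hM hT hP N s π _ hA, Psi_TT hI N s π _ hA]
  have h1 : (fun a => TT s π (fun j => if j.2 = 0 then O j.1 else 1) z a - ((s : ℤ) : ℝ) * pt π O a) =
      TT s π (fun j => if j.2 = 0 then O j.1 else 1) (fun a => z a - u0 K a) := by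
    rw [← TT_sub, TT_u0 hM s π O]
  rw [h1, nsq_TT hM s π _ hA]

theorem cont_gg (hS : ST_PSC) (K N : ℕ) : Continuous (gg K N) := by
  unfold gg
  exact ((cont_fv K).pow _).div (hS K N).1 (fun y => ((hS K N).2.1 y).ne')

theorem gg_nonneg (hS : ST_PSC) (K N : ℕ) (y : (Fin K × Fin 2 → Fin 3) → ℝ) : 0 ≤ gg K N y := by
  unfold gg
  refine div_nonneg ?_ ((hS K N).2.1 y).le
  rw [pow_mul]
  positivity

/-- The integrand of Fubini. -/
noncomputable def FF (K N : ℕ) (s : ℤˣ) (π : Equiv.Perm (Fin K × Fin 2))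
    (q : ((Fin K × Fin 2 → Fin 3) → ℝ) × (Fin K → Fin 3 → ℝ)) : ℝ :=
  gg K N q.1 * (ww K N s π q.1 (fun p => Cay (q.2 p)) * ∏ p, rho (q.2 p))

theorem cont_FF (hS : ST_PSC) (K N : ℕ) (s : ℤˣ) (π : Equiv.Perm (Fin K × Fin 2)) :
    Continuous (FF K N s π) := by
  unfold FF
  refine ((cont_gg hS K N).comp continuous_fst).mul (Continuous.mul ?_ ?_)
  · unfold ww
    refine Real.continuous_exp.comp (continuous_const.mul (cont_nsq.comp ?_))
    refine continuous_pi (fun a => ?_)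
    exact ((continuous_apply a).comp continuous_fst).sub
      (continuous_const.mul ((cont_pt π a).comp continuous_snd))
  · refine continuous_finset_prod _ (fun p _ => ?_)
    exact cont_rho.comp ((continuous_apply p).comp continuous_snd)

theorem int_ww (h1 : ST_AV1) (hS : ST_PSC) (K N : ℕ) (s : ℤˣ) (π : Equiv.Perm (Fin K × Fin 2))
    (y : (Fin K × Fin 2 → Fin 3) → ℝ) : Integrable (fun v => FF K N s π (y, v)) := by
  refine Integrable.mono' ((h1 K).2.const_mul (gg K N y)) ?_ (Eventually.of_forall (fun v => ?_))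
  · exact ((cont_FF hS K N s π).comp (Continuous.prodMk_right y)).aestronglyMeasurable
  · unfold FF
    have hr : 0 ≤ ∏ p, rho (v p) := Finset.prod_nonneg (fun p _ => (rho_pos _).le)
    have hg := gg_nonneg hS K N y
    have hw := ww_pos K N s π y (fun p => Cay (v p))
    have hw1 := ww_le K N s π y (fun p => Cay (v p))
    rw [Real.norm_of_nonneg (by positivity)]
    refine mul_le_mul_of_nonneg_left ?_ hg
    simpa using mul_le_mul_of_nonneg_right hw1 hr

theorem AV_nonneg' (K N : ℕ) (s : ℤˣ) (π : Equiv.Perm (Fin K × Fin 2))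
    (y : (Fin K × Fin 2 → Fin 3) → ℝ) : 0 ≤ AV K (ww K N s π y) := by
  unfold AV
  refine integral_nonneg (fun v => ?_)
  exact mul_nonneg (ww_pos _ _ _ _ _ _).le (Finset.prod_nonneg (fun p _ => (rho_pos _).le))

theorem AV_le_Psi (K N : ℕ) (s : ℤˣ) (π : Equiv.Perm (Fin K × Fin 2))
    (y : (Fin K × Fin 2 → Fin 3) → ℝ) : AV K (ww K N s π y) ≤ Psi K N y := by
  rw [Psi_eq]
  have h1 : AV K (ww K N s π y) ≤ ∑ π' : Equiv.Perm (Fin K × Fin 2), AV K (ww K N s π' y) :=
    Finset.single_le_sum (f := fun π' => AV K (ww K N s π' y)) (fun π' _ => AV_nonneg' _ _ _ _ _)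
      (Finset.mem_univ π)
  refine h1.trans ?_
  exact Finset.single_le_sum (f := fun s' : ℤˣ => ∑ π' : Equiv.Perm (Fin K × Fin 2),
    AV K (ww K N s' π' y)) (fun s' _ => Finset.sum_nonneg (fun π' _ => AV_nonneg' _ _ _ _ _))
      (Finset.mem_univ s)

theorem int_FF_v (K N : ℕ) (s : ℤˣ) (π : Equiv.Perm (Fin K × Fin 2))
    (y : (Fin K × Fin 2 → Fin 3) → ℝ) :
    ∫ v, FF K N s π (y, v) = gg K N y * AV K (ww K N s π y) := by
  unfold FF AV
  exact integral_const_mul (gg K N y)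
    (fun v : Fin K → Fin 3 → ℝ => ww K N s π y (fun p => Cay (v p)) * ∏ p, rho (v p))

theorem FF_nonneg (hS : ST_PSC) (K N : ℕ) (s : ℤˣ) (π : Equiv.Perm (Fin K × Fin 2))
    (q : ((Fin K × Fin 2 → Fin 3) → ℝ) × (Fin K → Fin 3 → ℝ)) : 0 ≤ FF K N s π q := by
  unfold FF
  exact mul_nonneg (gg_nonneg hS K N _) (mul_nonneg (ww_pos _ _ _ _ _ _).le
    (Finset.prod_nonneg (fun p _ => (rho_pos _).le)))

theorem gg_mul_le (hS : ST_PSC) (K N : ℕ) (s : ℤˣ) (π : Equiv.Perm (Fin K × Fin 2))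
    (y : (Fin K × Fin 2 → Fin 3) → ℝ) : gg K N y * AV K (ww K N s π y) ≤ fv K y ^ (2 * N) := by
  have h := mul_le_mul_of_nonneg_left (AV_le_Psi K N s π y) (gg_nonneg hS K N y)
  refine h.trans (le_of_eq ?_)
  unfold gg
  exact div_mul_cancel₀ _ ((hS K N).2.1 y).ne'

theorem int_FF (h1 : ST_AV1) (hS : ST_PSC) (K N : ℕ) (hN : 0 < N) (s : ℤˣ)
    (π : Equiv.Perm (Fin K × Fin 2)) :
    Integrable (FF K N s π) ((volume : Measure ((Fin K × Fin 2 → Fin 3) → ℝ)).prod
      (volume : Measure (Fin K → Fin 3 → ℝ))) := by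
  have hm : AEStronglyMeasurable (FF K N s π) ((volume : Measure ((Fin K × Fin 2 → Fin 3) → ℝ)).prod
      (volume : Measure (Fin K → Fin 3 → ℝ))) := (cont_FF hS K N s π).aestronglyMeasurable
  rw [integrable_prod_iff hm]
  refine ⟨Eventually.of_forall (fun y => int_ww h1 hS K N s π y), ?_⟩
  refine Integrable.mono' (fv_int K N hN) hm.norm.integral_prod_right' (Eventually.of_forall (fun y => ?_))
  have e1 : ∫ v, ‖FF K N s π (y, v)‖ = gg K N y * AV K (ww K N s π y) := by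
    rw [← int_FF_v]
    exact integral_congr_ae (Eventually.of_forall (fun v => Real.norm_of_nonneg (FF_nonneg hS K N s π _)))
  rw [e1, Real.norm_of_nonneg (mul_nonneg (gg_nonneg hS K N y) (AV_nonneg' _ _ _ _ _))]
  exact gg_mul_le hS K N s π y

theorem st_FPI (hI : ST_PSINV) (hS : ST_PSC) (hT : ST_ACTT) (hM : ST_ACTM) (hP : ST_PERMT)
    (hV : ST_ACTV) (h1 : ST_AV1) (hC : ST_CAY) : ST_FPI := by
  intro K N hN
  set I := ∫ z, gg K N z * Real.exp (-(N : ℝ) * nsq (fun a => z a - u0 K a)) with hIdef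
  have key : ∀ (s : ℤˣ) (π : Equiv.Perm (Fin K × Fin 2)),
      ∫ y, gg K N y * AV K (ww K N s π y) = I := by
    intro s π
    have e1 : ∫ y, gg K N y * AV K (ww K N s π y) = ∫ y, ∫ v, FF K N s π (y, v) := by
      refine integral_congr_ae (Eventually.of_forall (fun y => ?_))
      exact (int_FF_v K N s π y).symm
    rw [e1, integral_integral_swap (f := fun y v => FF K N s π (y, v)) (int_FF h1 hS K N hN s π)]
    have e2 : ∀ v : Fin K → Fin 3 → ℝ, ∫ y, FF K N s π (y, v) = I * ∏ p, rho (v p) := by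
      intro v
      rw [hIdef, ← inner_int hI hT hM hP hV K N s π (fun p => Cay (v p)) (fun p => hC _),
        ← integral_mul_const]
      refine integral_congr_ae (Eventually.of_forall (fun y => ?_))
      simp only [FF]
      ring
    simp only [e2]
    rw [integral_const_mul]
    have e3 := (h1 K).1
    unfold AV at e3
    simp only [one_mul] at e3
    rw [e3, mul_one]
  have hint : ∀ (s : ℤˣ) (π : Equiv.Perm (Fin K × Fin 2)),
      Integrable (fun y => gg K N y * AV K (ww K N s π y)) := by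
    intro s π
    have h := (int_FF h1 hS K N hN s π).integral_prod_left
    refine h.congr (Eventually.of_forall (fun y => ?_))
    exact int_FF_v K N s π y
  have e4 : ∀ y, fv K y ^ (2 * N) = ∑ s : ℤˣ, ∑ π : Equiv.Perm (Fin K × Fin 2),
      gg K N y * AV K (ww K N s π y) := by
    intro y
    simp only [← Finset.mul_sum]
    rw [← Psi_eq]
    unfold gg
    exact (div_mul_cancel₀ _ ((hS K N).2.1 y).ne').symm
  have e5 : ∫ y, fv K y ^ (2 * N) = ∑ _s : ℤˣ, ∑ _π : Equiv.Perm (Fin K × Fin 2), I := by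
    simp only [e4]
    rw [integral_finset_sum _ (fun s _ => integrable_finset_sum _ (fun π _ => hint s π))]
    refine Finset.sum_congr rfl (fun s _ => ?_)
    rw [integral_finset_sum _ (fun π _ => hint s π)]
    exact Finset.sum_congr rfl (fun π _ => key s π)
  rw [e5]
  have e6 : I = ∫ y, fv K y ^ (2 * N) * Real.exp (-(N : ℝ) * nsq (fun a => y a - u0 K a)) /
      Psi K N y := by
    rw [hIdef]
    refine integral_congr_ae (Eventually.of_forall (fun y => ?_))
    simp only [gg]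
    ring
  rw [← e6]
  simp only [Finset.sum_const, Finset.card_univ, Fintype.card_units_int, Fintype.card_perm,
    Fintype.card_prod, Fintype.card_fin, nsmul_eq_mul]
  rw [mul_comm K 2]
  push_cast
  ring

end Pool.Agent.Helper81.T5
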