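import Pool.Agent.Helper46.T5.Stmts

set_option autoImplicit false

/-!
Continuity and integrability facts for the gauge fixing identity.
-/

open Finset MeasureTheory Filter Topology

namespace Pool.Agent.Helper81.T5

open Pool.Agent.Helper15.T4 Pool.Agent.Helper46.T5

theorem cont_nsq {ι : Type} [Fintype ι] : Continuous (fun x : ι → ℝ => nsq x) := by
  unfold nsq
  fun_prop

theorem nsq_nonneg' {ι : Type} [Fintype ι] (x : ι → ℝ) : 0 ≤ nsq x :=
  Finset.sum_nonneg (fun _ _ => sq_nonneg _)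

theorem cont_skew : Continuous (fun v : Fin 3 → ℝ => skew v) := by
  refine continuous_matrix (fun i j => ?_)
  unfold skew
  fin_cases i <;> fin_cases j <;> simp <;> fun_prop

theorem cont_Cay : Continuous Cay := by
  unfold Cay
  have h1 : Continuous (fun v : Fin 3 → ℝ => (1 + nsq v)⁻¹) := by
    refine Continuous.inv₀ (continuous_const.add cont_nsq) (fun v => ?_)
    have := nsq_nonneg' v
    positivity
  have h2 : Continuous (fun v : Fin 3 → ℝ => (1 - nsq v) • (1 : M3)) :=
    (continuous_const.sub cont_nsq).smul continuous_const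
  have h3 : Continuous (fun v : Fin 3 → ℝ => Matrix.vecMulVec v v) := by
    refine continuous_matrix (fun i j => ?_)
    unfold Matrix.vecMulVec
    simp only [Matrix.of_apply]
    fun_prop
  have h4 : Continuous (fun v : Fin 3 → ℝ => (2 : ℝ) • Matrix.vecMulVec v v) := by
    refine continuous_matrix (fun i j => ?_)
    simp only [Matrix.smul_apply]
    exact ((continuous_apply j).comp ((continuous_apply i).comp h3)).const_smul (2 : ℝ)
  have h5 : Continuous (fun v : Fin 3 → ℝ => (2 : ℝ) • skew v) := by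
    refine continuous_matrix (fun i j => ?_)
    simp only [Matrix.smul_apply]
    exact ((continuous_apply j).comp ((continuous_apply i).comp cont_skew)).const_smul (2 : ℝ)
  exact h1.smul ((h2.add h4).add h5)

theorem cont_rho : Continuous rho := by
  unfold rho
  refine Continuous.inv₀ (continuous_const.mul ((continuous_const.add cont_nsq).pow 2)) (fun v => ?_)
  have := nsq_nonneg' v
  have := Real.pi_pos
  positivity

theorem rho_pos (v : Fin 3 → ℝ) : 0 < rho v := by
  unfold rho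
  have := nsq_nonneg' v
  have := Real.pi_pos
  positivity

theorem cont_pt {J : Type} {K : ℕ} (φ : Fin K × Fin 2 ≃ J) (a : J → Fin 3) :
    Continuous (fun v : Fin K → Fin 3 → ℝ => pt φ (fun p => Cay (v p)) a) := by
  unfold pt
  refine continuous_finset_prod _ (fun p _ => ?_)
  have h1 : Continuous (fun v : Fin K → Fin 3 → ℝ => Cay (v p)) := cont_Cay.comp (continuous_apply p)
  exact ((continuous_apply _).comp ((continuous_apply _).comp h1)).div_const _

theorem cont_TJ (J : Type) [Fintype J] [DecidableEq J] :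
    Continuous (fun y : (J → Fin 3) → ℝ => TJ J y y y) := by
  unfold TJ
  fun_prop

theorem cont_fv (K : ℕ) : Continuous (fv K) := by
  unfold fv
  have h := cont_TJ (Fin K × Fin 2)
  have h2 : Continuous (fun y : (Fin K × Fin 2 → Fin 3) → ℝ => nsq y) := cont_nsq
  fun_prop

theorem abs_eps_le (a b c : Fin 3) : |((eps a b c : ℤ) : ℝ)| ≤ 1 := by
  unfold eps
  split_ifs <;> simp

/-- Crude bound of the trilinear form. -/
theorem TJ_abs_le (J : Type) [Fintype J] [DecidableEq J] (y : (J → Fin 3) → ℝ) :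
    |TJ J y y y| ≤ (∑ a, |y a|) ^ 3 := by
  have h1 : (∑ a, |y a|) ^ 3 = ∑ a : J → Fin 3, ∑ b : J → Fin 3, ∑ c : J → Fin 3,
      |y a| * |y b| * |y c| := by
    rw [pow_succ, pow_two, Finset.sum_mul_sum, Finset.sum_mul]
    refine Finset.sum_congr rfl (fun a _ => ?_)
    rw [Finset.sum_mul]
    refine Finset.sum_congr rfl (fun b _ => ?_)
    rw [Finset.mul_sum]
  rw [h1]
  unfold TJ
  refine (Finset.abs_sum_le_sum_abs _ _).trans (Finset.sum_le_sum (fun a _ => ?_))
  refine (Finset.abs_sum_le_sum_abs _ _).trans (Finset.sum_le_sum (fun b _ => ?_))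
  refine (Finset.abs_sum_le_sum_abs _ _).trans (Finset.sum_le_sum (fun c _ => ?_))
  rw [abs_mul, abs_mul, abs_mul, Finset.abs_prod]
  have h2 : ∏ j, |((eps (a j) (b j) (c j) : ℤ) : ℝ)| ≤ 1 :=
    Finset.prod_le_one (fun _ _ => abs_nonneg _) (fun _ _ => abs_eps_le _ _ _)
  have h3 : 0 ≤ |y a| * |y b| * |y c| := by positivity
  calc (∏ j, |((eps (a j) (b j) (c j) : ℤ) : ℝ)|) * |y a| * |y b| * |y c| =
      (∏ j, |((eps (a j) (b j) (c j) : ℤ) : ℝ)|) * (|y a| * |y b| * |y c|) := by ring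
    _ ≤ 1 * (|y a| * |y b| * |y c|) := mul_le_mul_of_nonneg_right h2 h3
    _ = _ := one_mul _

theorem TJ_sq_le (J : Type) [Fintype J] [DecidableEq J] (y : (J → Fin 3) → ℝ) :
    (TJ J y y y) ^ 2 ≤ (Fintype.card (J → Fin 3) : ℝ) ^ 3 * nsq y ^ 3 := by
  have h1 : (∑ a, |y a|) ^ 2 ≤ (Fintype.card (J → Fin 3) : ℝ) * nsq y := by
    have := sq_sum_le_card_mul_sum_sq (s := (univ : Finset (J → Fin 3))) (f := fun a => |y a|)
    rw [Finset.card_univ] at this
    simpa [nsq, sq_abs] using this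
  have h2 := TJ_abs_le J y
  calc (TJ J y y y) ^ 2 = |TJ J y y y| ^ 2 := (sq_abs _).symm
    _ ≤ ((∑ a, |y a|) ^ 3) ^ 2 := pow_le_pow_left₀ (abs_nonneg _) h2 2
    _ = ((∑ a, |y a|) ^ 2) ^ 3 := by ring
    _ ≤ ((Fintype.card (J → Fin 3) : ℝ) * nsq y) ^ 3 := pow_le_pow_left₀ (sq_nonneg _) h1 3
    _ = _ := by ring

theorem gauss_int' {ι : Type} [Fintype ι] {b : ℝ} (hb : 0 < b) :
    Integrable (fun x : ι → ℝ => Real.exp (-(b * nsq x))) := by
  have h : (fun x : ι → ℝ => Real.exp (-(b * nsq x))) = fun x => ∏ i, Real.exp (-b * x i ^ 2) := by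
    funext x
    rw [← Real.exp_sum]
    congr 1
    unfold nsq
    rw [Finset.mul_sum, ← Finset.sum_neg_distrib]
    exact Finset.sum_congr rfl (fun i _ => by ring)
  rw [h]
  exact Integrable.fintype_prod (fun _ => integrable_exp_neg_mul_sq hb)

theorem qq_pos : 0 < qq := by
  unfold qq
  positivity

/-- Pointwise bound of the square of the normalised vertex function. -/
theorem fv_sq_le (K : ℕ) : ∃ C : ℝ, 0 ≤ C ∧ ∀ y : (Fin K × Fin 2 → Fin 3) → ℝ,
    fv K y ^ 2 ≤ C * Real.exp (-(2 * nsq y)) := by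
  refine ⟨(Fintype.card (Fin K × Fin 2 → Fin 3) : ℝ) ^ 3 * 6 * Real.exp 3 / (qq ^ K) ^ 2, by
    have := qq_pos
    positivity, fun y => ?_⟩
  have hq : 0 < (qq ^ K) ^ 2 := by
    have := qq_pos
    positivity
  have h1 := TJ_sq_le (Fin K × Fin 2) y
  have h0 := nsq_nonneg' y
  have h2 : nsq y ^ 3 ≤ 6 * Real.exp (nsq y) := by
    have := Real.pow_div_factorial_le_exp (nsq y) h0 3
    have h3 : ((Nat.factorial 3 : ℕ) : ℝ) = 6 := by norm_num [Nat.factorial]
    rw [h3, div_le_iff₀ (by norm_num)] at this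
    linarith
  have e1 : fv K y ^ 2 = (TJ (Fin K × Fin 2) y y y) ^ 2 * Real.exp (-3 * (nsq y - 1)) / (qq ^ K) ^ 2 := by
    unfold fv
    rw [div_pow, mul_pow, ← Real.exp_nat_mul]
    congr 3
    push_cast
    ring
  rw [e1, div_mul_eq_mul_div]
  refine div_le_div_of_nonneg_right ?_ hq.le
  calc (TJ (Fin K × Fin 2) y y y) ^ 2 * Real.exp (-3 * (nsq y - 1)) ≤
      ((Fintype.card (Fin K × Fin 2 → Fin 3) : ℝ) ^ 3 * (6 * Real.exp (nsq y))) *
        Real.exp (-3 * (nsq y - 1)) := by
        refine mul_le_mul_of_nonneg_right (h1.trans ?_) (Real.exp_pos _).le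
        exact mul_le_mul_of_nonneg_left h2 (by positivity)
    _ = (Fintype.card (Fin K × Fin 2 → Fin 3) : ℝ) ^ 3 * 6 *
        (Real.exp (nsq y) * Real.exp (-3 * (nsq y - 1))) := by ring
    _ = (Fintype.card (Fin K × Fin 2 → Fin 3) : ℝ) ^ 3 * 6 *
        (Real.exp 3 * Real.exp (-(2 * nsq y))) := by
        rw [← Real.exp_add, ← Real.exp_add]
        congr 2
        ring
    _ = _ := by ring

theorem fv_int (K N : ℕ) (hN : 0 < N) :
    Integrable (fun y : (Fin K × Fin 2 → Fin 3) → ℝ => fv K y ^ (2 * N)) := by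
  obtain ⟨C, hC, h⟩ := fv_sq_le K
  have hb : (0 : ℝ) < 2 * N := by
    have : (0 : ℝ) < N := by exact_mod_cast hN
    positivity
  refine Integrable.mono' ((gauss_int' hb).const_mul (C ^ N)) ?_ (Eventually.of_forall (fun y => ?_))
  · exact ((cont_fv K).pow _).aestronglyMeasurable
  · rw [Real.norm_of_nonneg (by rw [pow_mul]; positivity), pow_mul]
    calc (fv K y ^ 2) ^ N ≤ (C * Real.exp (-(2 * nsq y))) ^ N :=
          pow_le_pow_left₀ (sq_nonneg _) (h y) N
      _ = C ^ N * Real.exp (-(2 * (N : ℝ) * nsq y)) := by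
          rw [mul_pow, ← Real.exp_nat_mul]
          congr 2
          ring

end Pool.Agent.Helper81.T5
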